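import Mathlib

/-! A limsup set of Hausdorff dimension zero. -/

set_option autoImplicit false

open Filter Topology MeasureTheory Set
open scoped ENNReal NNReal

namespace Q263.HD

section

variable (q Pr : ℕ → ℕ) (hug : ℕ → Prop)

/-- the limsup set -/
def Z : Set ℝ := {x | ∃ b : ℕ, ∀ N : ℕ, ∃ n, N ≤ n ∧ hug (n + 1) ∧ ∃ c : ℤ,
  (c : ℝ) * q (n + 1) + b ≤ x * Pr (n + 1) ∧ x * Pr (n + 1) ≤ c * q (n + 1) + b + 1}

/-- a bounded part of it -/
def Zb (b : ℕ) (M : ℤ) : Set ℝ := {x | (M : ℝ) ≤ x ∧ x ≤ M + 1 ∧ ∀ N : ℕ, ∃ n, N ≤ n ∧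
  hug (n + 1) ∧ ∃ c : ℤ,
  (c : ℝ) * q (n + 1) + b ≤ x * Pr (n + 1) ∧ x * Pr (n + 1) ≤ c * q (n + 1) + b + 1}

variable {q Pr hug}
variable (h0 : Pr 0 = 1) (hPr : ∀ n, Pr (n + 1) = Pr n * q (n + 1)) (hq : ∀ n, 1 ≤ q (n + 1))
  (hbig : ∀ n, hug (n + 1) → (Pr n + n + 2) ^ (n + 2) ≤ q (n + 1))

include h0 hPr hq in
lemma Pr_pos (n : ℕ) : 0 < Pr n := by
  induction n with
  | zero => rw [h0]; exact one_pos
  | succ n ih =>
    rw [hPr]
    exact Nat.mul_pos ih (hq n)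

include h0 hPr hq hbig in
lemma real_bound (d : ℝ) (n : ℕ) (hn : 3 ≤ d * (n + 2)) (hh : hug (n + 1)) :
    ((Pr n : ℝ) + 2) * (1 / (Pr (n + 1) : ℝ)) ^ d ≤ 1 / ((n : ℝ) + 1) ^ 2 := by
  set Y : ℝ := (Pr n : ℝ) + n + 2 with hY
  have hP := Pr_pos h0 hPr hq n
  have hPr1 : (1 : ℝ) ≤ Pr n := by exact_mod_cast hP
  have hn0 : (0 : ℝ) ≤ n := by positivity
  have hY1 : 1 ≤ Y := by rw [hY]; linarith
  have hY0 : 0 < Y := by linarith
  have hd : 0 ≤ d := by
    by_contra hcon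
    push Not at hcon
    nlinarith
  have h1 : Y ^ (n + 2) ≤ (Pr (n + 1) : ℝ) := by
    have h2 : (Pr n + n + 2) ^ (n + 2) ≤ Pr (n + 1) := by
      rw [hPr]
      exact (hbig n hh).trans (Nat.le_mul_of_pos_left _ hP)
    rw [hY]
    exact_mod_cast h2
  have h2 : (1 / (Pr (n + 1) : ℝ)) ^ d ≤ 1 / Y ^ 3 := by
    have h3 : (1 / (Pr (n + 1) : ℝ)) ^ d ≤ (1 / Y ^ (n + 2)) ^ d := by
      apply Real.rpow_le_rpow (by positivity) _ hd
      apply one_div_le_one_div_of_le (by positivity) h1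
    refine h3.trans ?_
    rw [one_div, Real.inv_rpow (by positivity), ← Real.rpow_natCast, ← Real.rpow_mul hY0.le,
      one_div]
    apply inv_anti₀ (by positivity)
    rw [← Real.rpow_natCast]
    apply Real.rpow_le_rpow_of_exponent_le hY1
    push_cast
    linarith
  calc ((Pr n : ℝ) + 2) * (1 / (Pr (n + 1) : ℝ)) ^ d ≤ Y * (1 / Y ^ 3) := by
        gcongr
        rw [hY]; linarith
    _ = 1 / Y ^ 2 := by field_simp
    _ ≤ 1 / ((n : ℝ) + 1) ^ 2 := by
        apply one_div_le_one_div_of_le (by positivity)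
        gcongr
        rw [hY]; linarith

/-- the covering intervals -/
noncomputable def cov (q Pr : ℕ → ℕ) (b : ℕ) (M : ℤ) (n : ℕ) (c : ℕ) : Set ℝ :=
  Icc (((M * Pr n + c : ℤ) * (q (n + 1) : ℝ) + b) / Pr (n + 1))
    (((M * Pr n + c : ℤ) * (q (n + 1) : ℝ) + b + 1) / Pr (n + 1))

include h0 hPr hq in
lemma ediam_cov (b : ℕ) (M : ℤ) (n c : ℕ) :
    Metric.ediam (cov q Pr b M n c) = ENNReal.ofReal (1 / (Pr (n + 1) : ℝ)) := by
  have hP : (0 : ℝ) < Pr (n + 1) := by exact_mod_cast Pr_pos h0 hPr hq (n + 1)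
  rw [cov, Real.ediam_Icc]
  congr 1
  field_simp
  ring

include h0 hPr hq hbig in
open Classical in
lemma measure_zero (b : ℕ) (M : ℤ) (d : ℝ≥0) (hd : 0 < d) : μH[d] (Zb q Pr hug b M) = 0 := by
  have hdr : (0 : ℝ) < d := by exact_mod_cast hd
  set t : ∀ H : ℕ, (Σ h' : ℕ, Fin (Pr (H + h') + 2)) → Set ℝ := fun H p =>
    if hug (H + p.1 + 1) then cov q Pr b M (H + p.1) p.2 else ∅ with ht
  set r : ℕ → ℝ≥0∞ := fun H => ENNReal.ofReal (1 / ((H : ℝ) + 1)) with hr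
  have hqbig : ∀ n, hug (n + 1) → n + 2 ≤ q (n + 1) := by
    intro n hh
    calc n + 2 ≤ Pr n + n + 2 := by omega
      _ = (Pr n + n + 2) ^ 1 := (pow_one _).symm
      _ ≤ (Pr n + n + 2) ^ (n + 2) := Nat.pow_le_pow_right (by omega) (by omega)
      _ ≤ q (n + 1) := hbig n hh
  have hPbig : ∀ n, hug (n + 1) → (n : ℝ) + 2 ≤ Pr (n + 1) := by
    intro n hh
    have : n + 2 ≤ Pr (n + 1) := by
      rw [hPr]
      exact (hqbig n hh).trans (Nat.le_mul_of_pos_left _ (Pr_pos h0 hPr hq n))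
    exact_mod_cast this
  have hrt : Tendsto r atTop (𝓝 0) := by
    have h1 : Tendsto (fun H : ℕ => 1 / ((H : ℝ) + 1)) atTop (𝓝 0) :=
      tendsto_one_div_add_atTop_nhds_zero_nat
    have := ENNReal.tendsto_ofReal h1
    rwa [ENNReal.ofReal_zero] at this
  have htr : ∀ᶠ H in atTop, ∀ i, Metric.ediam (t H i) ≤ r H := by
    refine Eventually.of_forall fun H p => ?_
    simp only [ht]
    split_ifs with hh
    · rw [ediam_cov h0 hPr hq]
      apply ENNReal.ofReal_le_ofReal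
      have h1 := hPbig _ hh
      push_cast at h1
      apply one_div_le_one_div_of_le (by positivity)
      have : (0 : ℝ) ≤ (p.1 : ℝ) := by positivity
      linarith
    · simp
  have hcov : ∀ᶠ H in atTop, Zb q Pr hug b M ⊆ ⋃ i, t H i := by
    filter_upwards [eventually_ge_atTop b] with H hH
    rintro x ⟨hx1, hx2, hx3⟩
    obtain ⟨n, hn, hh, c, hc1, hc2⟩ := hx3 H
    have hPn : (0 : ℝ) < Pr n := by exact_mod_cast Pr_pos h0 hPr hq n
    have hPn1 : (0 : ℝ) < Pr (n + 1) := by exact_mod_cast Pr_pos h0 hPr hq (n + 1)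
    have hqn : ((n : ℝ) + 2) ≤ q (n + 1) := by exact_mod_cast hqbig n hh
    have hq0 : (0 : ℝ) < q (n + 1) := by linarith [(by positivity : (0 : ℝ) ≤ (n : ℝ))]
    have hbn : (b : ℝ) ≤ n := by exact_mod_cast hH.trans hn
    have hb0 : (0 : ℝ) ≤ b := by positivity
    have hPe : (Pr (n + 1) : ℝ) = Pr n * q (n + 1) := by exact_mod_cast hPr n
    -- bounds for `c`
    have hcu : (c : ℝ) ≤ (M + 1) * Pr n := by
      have h1 : (c : ℝ) * q (n + 1) ≤ ((M + 1) * Pr n) * q (n + 1) := by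
        calc (c : ℝ) * q (n + 1) ≤ x * Pr (n + 1) := by linarith
          _ ≤ (M + 1) * Pr (n + 1) := by gcongr
          _ = ((M + 1) * Pr n) * q (n + 1) := by rw [hPe]; ring
      exact le_of_mul_le_mul_right h1 hq0
    have hcl : (M : ℝ) * Pr n - 1 < c := by
      have h1 : ((M : ℝ) * Pr n - 1) * q (n + 1) < c * q (n + 1) := by
        calc ((M : ℝ) * Pr n - 1) * q (n + 1) = M * Pr (n + 1) - q (n + 1) := by rw [hPe]; ring
          _ ≤ x * Pr (n + 1) - q (n + 1) := by gcongr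
          _ < c * q (n + 1) := by linarith
      exact lt_of_mul_lt_mul_right h1 hq0.le
    have hcu' : c ≤ (M + 1) * Pr n := by exact_mod_cast hcu
    have hcl' : M * Pr n - 1 < c := by exact_mod_cast hcl
    obtain ⟨h', rfl⟩ : ∃ h', n = H + h' := ⟨n - H, by omega⟩
    set P : ℕ := Pr (H + h') with hP
    have hc0 : 0 ≤ c - M * P := by omega
    have hc3 : c - M * P < (P : ℤ) + 2 := by
      have : (M + 1) * (P : ℤ) = M * P + P := by ring
      omega
    have hlt : (c - M * P).toNat < P + 2 := by omega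
    rw [mem_iUnion]
    refine ⟨⟨h', ⟨(c - M * P).toNat, hlt⟩⟩, ?_⟩
    simp only [ht]
    rw [if_pos hh, cov]
    have he : (M * (Pr (H + h') : ℤ) + (((c - M * P).toNat : ℕ) : ℤ)) = c := by
      rw [Int.toNat_of_nonneg hc0]
      ring
    rw [he, mem_Icc, div_le_iff₀ hPn1, le_div_iff₀ hPn1]
    exact ⟨hc1, hc2⟩
  have hmain := Measure.hausdorffMeasure_le_liminf_tsum (d : ℝ) (Zb q Pr hug b M) r hrt t htr hcov
  -- the sums tend to zero
  set g : ℕ → ℝ≥0∞ := fun n => ENNReal.ofReal (1 / ((n : ℝ) + 1) ^ 2) with hg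
  have hgsum : ∑' n, g n ≠ ∞ := by
    have h1 : Summable (fun n : ℕ => 1 / ((n : ℝ) + 1) ^ 2) := by
      have h2 : Summable (fun n : ℕ => 1 / (n : ℝ) ^ 2) :=
        Real.summable_one_div_nat_pow.mpr (by norm_num)
      have h3 := (summable_nat_add_iff 1).mpr h2
      refine h3.congr fun n => ?_
      push_cast
      rfl
    simp only [hg]
    rw [← ENNReal.ofReal_tsum_of_nonneg (fun n => by positivity) h1]
    exact ENNReal.ofReal_ne_top
  have hlim := ENNReal.tendsto_sum_nat_add g hgsum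
  have hle : ∀ᶠ H in atTop, ∑' i, Metric.ediam (t H i) ^ (d : ℝ) ≤ ∑' k, g (k + H) := by
    obtain ⟨H₀, hH₀⟩ := exists_nat_gt (3 / (d : ℝ))
    filter_upwards [eventually_ge_atTop H₀] with H hH
    rw [ENNReal.tsum_sigma']
    apply ENNReal.tsum_le_tsum
    intro h'
    rw [tsum_fintype]
    by_cases hh : hug (H + h' + 1)
    · have e : ∀ c : Fin (Pr (H + h') + 2), Metric.ediam (t H ⟨h', c⟩) ^ (d : ℝ) =
          ENNReal.ofReal ((1 / (Pr (H + h' + 1) : ℝ)) ^ (d : ℝ)) := by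
        intro c
        simp only [ht]
        rw [if_pos hh, ediam_cov h0 hPr hq, ENNReal.ofReal_rpow_of_nonneg (by positivity) hdr.le]
      rw [Finset.sum_congr rfl (fun c _ => e c), Finset.sum_const, Finset.card_univ,
        Fintype.card_fin, nsmul_eq_mul]
      have h3 : ((Pr (H + h') + 2 : ℕ) : ℝ≥0∞) = ENNReal.ofReal ((Pr (H + h') : ℝ) + 2) := by
        rw [← ENNReal.ofReal_natCast]
        push_cast
        rfl
      rw [h3, ← ENNReal.ofReal_mul (by positivity)]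
      apply ENNReal.ofReal_le_ofReal
      rw [add_comm h' H]
      apply real_bound h0 hPr hq hbig _ _ _ hh
      rw [div_lt_iff₀ hdr] at hH₀
      have h4 : (H₀ : ℝ) ≤ ((H + h' : ℕ) : ℝ) := by exact_mod_cast (by omega : H₀ ≤ H + h')
      nlinarith
    · have e : ∀ c : Fin (Pr (H + h') + 2), Metric.ediam (t H ⟨h', c⟩) ^ (d : ℝ) = 0 := by
        intro c
        simp only [ht]
        rw [if_neg hh, Metric.ediam_empty, ENNReal.zero_rpow_of_pos hdr]
      rw [Finset.sum_congr rfl (fun c _ => e c)]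
      simp
  have htend : Tendsto (fun H => ∑' i, Metric.ediam (t H i) ^ (d : ℝ)) atTop (𝓝 0) :=
    tendsto_of_tendsto_of_tendsto_of_le_of_le' tendsto_const_nhds hlim
      (Eventually.of_forall fun _ => zero_le) hle
  rw [htend.liminf_eq] at hmain
  exact le_antisymm hmain (zero_le)

include h0 hPr hq hbig in
theorem dimH_Z : dimH (Z q Pr hug) = 0 := by
  have hsub : Z q Pr hug ⊆ ⋃ (p : ℕ × ℤ), Zb q Pr hug p.1 p.2 := by
    rintro x ⟨b, hb⟩
    rw [mem_iUnion]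
    exact ⟨(b, ⌊x⌋), Int.floor_le x, (Int.lt_floor_add_one x).le, hb⟩
  apply le_antisymm _ (zero_le)
  refine (dimH_mono hsub).trans ?_
  rw [dimH_iUnion]
  apply iSup_le
  rintro ⟨b, M⟩
  apply ENNReal.le_of_forall_pos_le_add
  intro d hd _
  rw [zero_add]
  apply dimH_le_of_hausdorffMeasure_ne_top
  rw [measure_zero h0 hPr hq hbig b M d hd]
  exact ENNReal.zero_ne_top

end

end Q263.HD
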