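import Mathlib
import Pool.Agent.Q263.CS.Count
import Pool.Agent.Q263.HD.Dim

/-! The basic sequence. -/

set_option autoImplicit false

open Finset Filter Topology

namespace Q263.HD

/-- run lengths -/
def R (j : ℕ) : ℕ := j * ((j + 2) ^ j + 2)

/-- total run length up to stage `J` -/
def SR (J : ℕ) : ℕ := ∑ j ∈ range (J + 1), R j

/-- number of groups of four -/
def G (j : ℕ) : ℕ := (j + 3) ^ 2 * ((j + 1) * (SR (j + 1) + 1))

/-- beginning of stage `j` -/
def A : ℕ → ℕ
  | 0 => 0
  | j + 1 => A j + R j + 4 * G j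

lemma G_pos (j : ℕ) : 0 < G j := by unfold G; positivity

lemma A_strictMono : StrictMono A := strictMono_nat_of_lt_succ fun j => by
  have := G_pos j
  rw [A]; omega

lemma exists_stage (n : ℕ) : ∃ J, n < A (J + 1) := by
  refine ⟨n, ?_⟩
  have h1 : n + 1 ≤ A (n + 1) := A_strictMono.id_le _
  omega

/-- the stage containing position `n` -/
def st (n : ℕ) : ℕ := Nat.find (exists_stage n)

lemma st_lt (n : ℕ) : n < A (st n + 1) := Nat.find_spec (exists_stage n)

lemma le_st (n : ℕ) : A (st n) ≤ n := by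
  rcases Nat.eq_zero_or_pos (st n) with h | h
  · rw [h, A]; exact Nat.zero_le _
  · have := Nat.find_min (exists_stage n) (m := st n - 1) (by unfold st at h ⊢; omega)
    rw [show st n - 1 + 1 = st n by omega] at this
    omega

lemma st_eq {n J : ℕ} (h1 : A J ≤ n) (h2 : n < A (J + 1)) : st n = J := by
  have h3 := st_lt n
  have h4 := le_st n
  have h5 : A J < A (st n + 1) := by omega
  have h6 : A (st n) < A (J + 1) := by omega
  have h7 := A_strictMono.lt_iff_lt.mp h5
  have h8 := A_strictMono.lt_iff_lt.mp h6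
  omega

lemma st_ge {n J : ℕ} (h1 : A J ≤ n) : J ≤ st n := by
  have h3 := st_lt n
  have h5 : A J < A (st n + 1) := by omega
  have h7 := A_strictMono.lt_iff_lt.mp h5
  omega

lemma st_le {n J : ℕ} (h1 : n < A (J + 1)) : st n ≤ J := by
  have h3 := le_st n
  have h5 : A (st n) < A (J + 1) := by omega
  have h7 := A_strictMono.lt_iff_lt.mp h5
  omega

lemma st_le_self (n : ℕ) : st n ≤ n := by
  have h1 := le_st n
  have h2 : st n ≤ A (st n) := A_strictMono.id_le _
  omega

lemma st_mono : Monotone st := fun _ _ h => st_ge ((le_st _).trans h)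

lemma tendsto_st : Tendsto st atTop atTop :=
  tendsto_atTop_atTop.mpr fun J => ⟨A J, fun _ h => st_ge h⟩

/-- the positions in a run (shifted by one) -/
def run (i : ℕ) : Prop := i < A (st i) + R (st i)

instance : DecidablePred run := fun _ => Nat.decLt _ _

/-- the positions with a huge base -/
def hug (n : ℕ) : Prop := ¬ run (n - 1) ∧ 2 ≤ (n - 1) % 4

instance : DecidablePred hug := fun n => by unfold hug; infer_instance

/-- the base at position `n + 1`, given the product of the previous ones -/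
def qf (n P : ℕ) : ℕ := if hug (n + 1) then (P + n + 2) ^ (n + 2) else st n + 2

/-- the products -/
def Pr : ℕ → ℕ
  | 0 => 1
  | n + 1 => Pr n * qf n (Pr n)

/-- the basic sequence -/
def q : ℕ → ℕ
  | 0 => 2
  | n + 1 => qf n (Pr n)

lemma Pr_succ (n : ℕ) : Pr (n + 1) = Pr n * q (n + 1) := rfl

lemma q_ge_st (n : ℕ) : st n + 2 ≤ q (n + 1) := by
  rw [q, qf]
  split_ifs
  · have := st_le_self n
    calc st n + 2 ≤ (Pr n + n + 2) ^ 1 := by rw [pow_one]; omega
      _ ≤ _ := Nat.pow_le_pow_right (by omega) (by omega)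
  · exact le_rfl

lemma two_le_q (n : ℕ) : 2 ≤ q n := by
  rcases n with _ | n
  · exact le_rfl
  · have := q_ge_st n; omega

lemma q_small {n : ℕ} (h : ¬ hug (n + 1)) : q (n + 1) = st n + 2 := by
  rw [q, qf, if_neg h]

lemma q_big {n : ℕ} (h : hug (n + 1)) : (Pr n + n + 2) ^ (n + 2) ≤ q (n + 1) := by
  rw [q, qf, if_pos h]

lemma tendsto_q : Tendsto q atTop atTop := by
  rw [← tendsto_add_atTop_iff_nat 1]
  refine tendsto_atTop_mono (fun n => ?_) tendsto_st
  have := q_ge_st n
  omega

lemma Pr_eq (n : ℕ) : (Pr n : ℝ) = ∏ i ∈ Icc 1 n, (q i : ℝ) := by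
  induction n with
  | zero => simp [Pr]
  | succ n ih =>
    rw [Pr_succ, Finset.prod_Icc_succ_top (by omega), ← ih]
    push_cast
    rfl

open CS (wt Qs wt_nonneg)

lemma wt_le_one (k i : ℕ) : wt q k i ≤ 1 := by
  unfold wt
  apply inv_le_one_of_one_le₀
  calc (1 : ℝ) = ∏ _t ∈ range k, (1 : ℝ) := by simp
    _ ≤ ∏ t ∈ range k, (q (i + t) : ℝ) := by
      apply Finset.prod_le_prod (fun _ _ => zero_le_one)
      intro t _
      have := two_le_q (i + t)
      exact_mod_cast (by omega : 1 ≤ q (i + t))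

/-! ## Divergence along progressions -/

/-- in a run the base is constant -/
lemma q_run {J i : ℕ} (h1 : A J ≤ i) (h2 : i < A J + R J) : q (i + 1) = J + 2 := by
  have h3 : st i = J := st_eq h1 (by rw [A]; omega)
  rw [q_small, h3]
  rintro ⟨h4, -⟩
  apply h4
  rw [add_tsub_cancel_right, run, h3]
  exact h2

lemma run_weight {k m r J : ℕ} (hk : 1 ≤ k) (hm : 1 ≤ m) (hr : r < m) (hkJ : k ≤ J)
    (hmJ : m ≤ J) :
    (1 : ℝ) ≤ ∑ p ∈ (Ico (A J + 1) (A (J + 1) + 1)).filter (fun p => p % m = r), wt q k p := by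
  have hJ2 : (0 : ℝ) < (J : ℝ) + 2 := by positivity
  -- the positions whose whole window lies in the run
  set W := (Ico (A J + 1) (A J + R J + 2 - k)).filter (fun p => p % m = r % m) with hW
  have hRk : k ≤ R J := by
    unfold R
    have : 1 ≤ (J + 2) ^ J := Nat.one_le_pow _ _ (by omega)
    calc k ≤ J * 1 := by omega
      _ ≤ J * ((J + 2) ^ J + 2) := Nat.mul_le_mul_left _ (by omega)
  have hcount := CS.count_bound m r (A J + 1) (A J + R J + 2 - k) hm (by omega)
  rw [← hW] at hcount
  have hcard : ((J : ℝ) + 2) ^ k ≤ #W := by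
    have h1 := (abs_le.mp hcount).1
    have h2 : ((A J + R J + 2 - k : ℕ) : ℝ) = A J + R J + 2 - k := by
      rw [Nat.cast_sub (by omega)]
      push_cast
      ring
    rw [h2] at h1
    have hmr : (0 : ℝ) < m := by exact_mod_cast hm
    have h3 : (((J + 2) ^ k + 1) * m + k : ℕ) ≤ R J := by
      unfold R
      have h4 : (J + 2) ^ k ≤ (J + 2) ^ J := Nat.pow_le_pow_right (by omega) hkJ
      calc ((J + 2) ^ k + 1) * m + k ≤ ((J + 2) ^ J + 1) * J + J :=
            Nat.add_le_add (Nat.mul_le_mul (by omega) hmJ) hkJ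
        _ = J * ((J + 2) ^ J + 2) := by ring
    have h5 : (((J : ℝ) + 2) ^ k + 1) * m + k ≤ R J := by exact_mod_cast h3
    have h6 : ((J : ℝ) + 2) ^ k + 1 ≤ ((A J : ℝ) + R J + 2 - k - (A J + 1 : ℕ)) / m := by
      rw [le_div_iff₀ hmr]
      push_cast
      linarith
    linarith
  have hsub : W ⊆ (Ico (A J + 1) (A (J + 1) + 1)).filter (fun p => p % m = r) := by
    intro p hp
    rw [hW, Finset.mem_filter, Finset.mem_Ico, Nat.mod_eq_of_lt hr] at hp
    rw [Finset.mem_filter, Finset.mem_Ico, A]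
    exact ⟨⟨hp.1.1, by omega⟩, hp.2⟩
  have hval : ∀ p ∈ W, wt q k p = (((J : ℝ) + 2) ^ k)⁻¹ := by
    intro p hp
    rw [hW, Finset.mem_filter, Finset.mem_Ico] at hp
    unfold wt
    congr 1
    have : ∀ t ∈ range k, (q (p + t) : ℝ) = (J : ℝ) + 2 := by
      intro t ht
      rw [Finset.mem_range] at ht
      have h1 := q_run (J := J) (i := p + t - 1) (by omega) (by omega)
      rw [show p + t - 1 + 1 = p + t by omega] at h1
      rw [h1]
      push_cast
      rfl
    rw [Finset.prod_congr rfl this, Finset.prod_const, Finset.card_range]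
  calc (1 : ℝ) = ((J : ℝ) + 2) ^ k * (((J : ℝ) + 2) ^ k)⁻¹ :=
        (mul_inv_cancel₀ (by positivity)).symm
    _ ≤ #W * (((J : ℝ) + 2) ^ k)⁻¹ := by gcongr
    _ = ∑ p ∈ W, wt q k p := by
        rw [Finset.sum_congr rfl hval, Finset.sum_const, nsmul_eq_mul]
    _ ≤ _ := Finset.sum_le_sum_of_subset_of_nonneg hsub fun _ _ _ => wt_nonneg _ _ _

/-- `q` is fully divergent of type I -/
lemma divergent {k m r : ℕ} (hk : 1 ≤ k) (hm : 1 ≤ m) (hr : r < m) :
    Tendsto (fun n => ∑ j ∈ (Icc 1 n).filter (fun j => j % m = r), wt q k j) atTop atTop := by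
  set F : ℕ → ℝ := fun n => ∑ j ∈ (Icc 1 n).filter (fun j => j % m = r), wt q k j with hF
  have hmono : Monotone F := by
    intro a b hab
    apply Finset.sum_le_sum_of_subset_of_nonneg
    · exact Finset.filter_subset_filter _ (Finset.Icc_subset_Icc_right hab)
    · intro _ _ _; exact wt_nonneg _ _ _
  set J₀ := max k m with hJ₀
  have hstep : ∀ d : ℕ, (d : ℝ) ≤ F (A (J₀ + d)) := by
    intro d
    induction d with
    | zero =>
      simp only [Nat.cast_zero]
      exact Finset.sum_nonneg fun _ _ => wt_nonneg _ _ _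
    | succ d ih =>
      have h1 := run_weight (J := J₀ + d) hk hm hr (by omega) (by omega)
      have h2 : F (A (J₀ + (d + 1))) = F (A (J₀ + d)) +
          ∑ p ∈ (Ico (A (J₀ + d) + 1) (A (J₀ + d + 1) + 1)).filter (fun p => p % m = r),
            wt q k p := by
        simp only [hF]
        have hlt : A (J₀ + d) < A (J₀ + d + 1) := A_strictMono (by omega)
        rw [← Finset.sum_union]
        · congr 1
          rw [← Finset.filter_union]
          congr 1
          ext p
          simp only [Finset.mem_union, Finset.mem_Icc, Finset.mem_Ico]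
          rw [← add_assoc]
          omega
        · rw [Finset.disjoint_left]
          intro p hp hp'
          rw [Finset.mem_filter, Finset.mem_Icc] at hp
          rw [Finset.mem_filter, Finset.mem_Ico] at hp'
          omega
      rw [h2]
      push_cast
      linarith
  rw [tendsto_atTop_atTop]
  intro b
  obtain ⟨d, hd⟩ := exists_nat_ge b
  exact ⟨A (J₀ + d), fun n hn => hd.trans ((hstep d).trans (hmono hn))⟩

/-! ## Few positions in runs -/

/-- the number of positions in runs -/
def rc (N : ℕ) : ℕ := #((range (N + 1)).filter run)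

lemma rc_le (N : ℕ) : rc N ≤ SR (st N) := by
  have hsub : (range (N + 1)).filter run ⊆
      (range (st N + 1)).biUnion fun j => Ico (A j) (A j + R j) := by
    intro i hi
    rw [Finset.mem_filter, Finset.mem_range] at hi
    rw [Finset.mem_biUnion]
    refine ⟨st i, ?_, ?_⟩
    · rw [Finset.mem_range]
      have := st_mono (show i ≤ N by omega)
      omega
    · rw [Finset.mem_Ico]
      exact ⟨le_st i, hi.2⟩
  have h1 := (Finset.card_le_card hsub).trans Finset.card_biUnion_le
  refine h1.trans ?_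
  unfold SR
  apply le_of_eq
  exact Finset.sum_congr rfl fun j _ => by rw [Nat.card_Ico]; omega

/-- the weight of the pairs of small positions -/
lemma Qs_ge {J N : ℕ} (h : A (J + 1) ≤ N) :
    ((J : ℝ) + 1) * (SR (J + 1) + 1) ≤ Qs q 2 N := by
  have hJ3 : (0 : ℝ) < (J : ℝ) + 3 := by positivity
  -- the pairs
  set W := (Ico (A J + R J) (A (J + 1))).filter (fun i => i % 4 = 0) with hW
  have hWcard : (G J : ℝ) ≤ #W := by
    have h1 := Nat.Ico_filter_modEq_card (A J + R J) (A (J + 1)) (r := 4) (by norm_num) 0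
    have e : W = (Ico (A J + R J) (A (J + 1))).filter (fun i => i ≡ 0 [MOD 4]) := by
      rw [hW]; rfl
    rw [← e] at h1
    have h2 : (((A (J + 1) : ℕ) : ℚ) - (0 : ℕ)) / (4 : ℕ) =
        (((A J + R J : ℕ) : ℚ) - (0 : ℕ)) / (4 : ℕ) + ((G J : ℤ) : ℚ) := by
      rw [A]; push_cast; ring
    rw [h2, Int.ceil_add_intCast] at h1
    have h3 : (#W : ℤ) = G J := by
      rw [h1]
      have : (0 : ℤ) ≤ G J := by positivity
      omega
    have h4 : #W = G J := by exact_mod_cast h3
    rw [h4]
  have hval : ∀ i ∈ W, (((J : ℝ) + 3) ^ 2)⁻¹ ≤ wt q 2 (i + 1) := by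
    intro i hi
    rw [hW, Finset.mem_filter, Finset.mem_Ico] at hi
    obtain ⟨⟨h1, h2⟩, h3⟩ := hi
    unfold wt
    rw [Finset.prod_range_succ, Finset.prod_range_one]
    have h4 : q (i + 0 + 1) ≤ J + 3 := by
      rw [add_zero, q_small]
      · have := st_le h2
        omega
      · rintro ⟨-, h5⟩
        rw [add_tsub_cancel_right] at h5
        omega
    have h5 : q (i + 1 + 1) ≤ J + 3 := by
      rw [q_small]
      · have h6 : st (i + 1) ≤ J + 1 := by
          apply st_le
          have : A (J + 1) < A (J + 1 + 1) := A_strictMono (by omega)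
          omega
        omega
      · rintro ⟨-, h5⟩
        rw [add_tsub_cancel_right] at h5
        omega
    have h6 : (q (i + 1 + 0) : ℝ) ≤ (J : ℝ) + 3 := by exact_mod_cast h4
    have h7 : (q (i + 1 + 1) : ℝ) ≤ (J : ℝ) + 3 := by exact_mod_cast h5
    have h8 : (0 : ℝ) < q (i + 1 + 0) := by
      have := two_le_q (i + 1 + 0)
      exact_mod_cast (by omega : 0 < q (i + 1 + 0))
    have h9 : (0 : ℝ) < q (i + 1 + 1) := by
      have := two_le_q (i + 1 + 1)
      exact_mod_cast (by omega : 0 < q (i + 1 + 1))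
    apply inv_anti₀ (mul_pos h8 h9)
    rw [pow_two]
    exact mul_le_mul h6 h7 h9.le hJ3.le
  have hG : (G J : ℝ) = ((J : ℝ) + 3) ^ 2 * (((J : ℝ) + 1) * (SR (J + 1) + 1)) := by
    unfold G; push_cast; ring
  calc ((J : ℝ) + 1) * (SR (J + 1) + 1) = G J * (((J : ℝ) + 3) ^ 2)⁻¹ := by
        rw [hG]; field_simp
    _ ≤ #W * (((J : ℝ) + 3) ^ 2)⁻¹ := by gcongr
    _ = ∑ _i ∈ W, (((J : ℝ) + 3) ^ 2)⁻¹ := by rw [Finset.sum_const, nsmul_eq_mul]
    _ ≤ ∑ i ∈ W, wt q 2 (i + 1) := Finset.sum_le_sum hval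
    _ = ∑ p ∈ W.image (· + 1), wt q 2 p := by
        rw [Finset.sum_image]
        intro a _ b _ hab
        simpa using hab
    _ ≤ Qs q 2 N := by
        unfold Qs
        apply Finset.sum_le_sum_of_subset_of_nonneg
        · intro p hp
          rw [Finset.mem_image] at hp
          obtain ⟨i, hi, rfl⟩ := hp
          rw [hW, Finset.mem_filter, Finset.mem_Ico] at hi
          rw [Finset.mem_Icc]
          omega
        · intro _ _ _; exact wt_nonneg _ _ _

lemma Qs_ge' (N : ℕ) : (st N : ℝ) * (rc N + 1) ≤ Qs q 2 N := by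
  rcases h : st N with _ | J
  · simp only [Nat.cast_zero, zero_mul]
    exact Finset.sum_nonneg fun _ _ => wt_nonneg _ _ _
  · have h1 : A (J + 1) ≤ N := by rw [← h]; exact le_st N
    have h2 := Qs_ge h1
    have h3 := rc_le N
    rw [h] at h3
    have h4 : (rc N : ℝ) ≤ SR (J + 1) := by exact_mod_cast h3
    push_cast
    calc ((J : ℝ) + 1) * (rc N + 1) ≤ ((J : ℝ) + 1) * (SR (J + 1) + 1) := by gcongr
      _ ≤ _ := h2

lemma tendsto_Qs : Tendsto (Qs q 2) atTop atTop := by
  refine tendsto_atTop_mono (f := fun N => (st N : ℝ)) ?_ ?_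
  · intro N
    refine le_trans ?_ (Qs_ge' N)
    have : (0 : ℝ) ≤ rc N := by positivity
    have : (0 : ℝ) ≤ st N := by positivity
    nlinarith
  · exact tendsto_natCast_atTop_atTop.comp tendsto_st

/-- anything bounded by `C (rc + 1)` is negligible compared with the weight -/
lemma negligible {f : ℕ → ℝ} {C : ℝ} (h0 : ∀ n, 0 ≤ f n) (hf : ∀ n, f n ≤ C * (rc n + 1)) :
    Tendsto (fun n => f n / Qs q 2 n) atTop (𝓝 0) := by
  have hC : 0 ≤ C := by
    have h1 := (h0 0).trans (hf 0)
    have h2 : (0 : ℝ) < (rc 0 : ℝ) + 1 := by positivity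
    by_contra hcon
    push Not at hcon
    nlinarith
  have h1 : Tendsto (fun n => C / (st n : ℝ)) atTop (𝓝 0) :=
    Tendsto.div_atTop tendsto_const_nhds (tendsto_natCast_atTop_atTop.comp tendsto_st)
  refine tendsto_of_tendsto_of_tendsto_of_le_of_le' tendsto_const_nhds h1 ?_ ?_
  · filter_upwards [tendsto_Qs.eventually_gt_atTop 0] with n hn
    exact div_nonneg (h0 n) hn.le
  · filter_upwards [tendsto_Qs.eventually_gt_atTop 0, tendsto_st.eventually_gt_atTop 0]
      with n hn hst
    have hst' : (0 : ℝ) < st n := by exact_mod_cast hst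
    rw [div_le_div_iff₀ hn hst']
    calc f n * st n ≤ C * (rc n + 1) * st n := by
          gcongr
          exact hf n
      _ = C * (st n * (rc n + 1)) := by ring
      _ ≤ C * Qs q 2 n := by
          gcongr
          exact Qs_ge' n

end Q263.HD
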